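import Pool.Agent.V8H14.MHA.Base

/-!
# The homology of the complex of all pairs (tope, list of topes)
-/

set_option autoImplicit false

namespace Pool.Agent.V8H61.MD

open Pool.Agent.V8H14.MHA

section algebra

theorem sup_ind {α M : Type} [AddCommGroup M] (T : (α →₀ ℤ) →ₗ[ℤ] M) (S : Set α)
    (N : Submodule ℤ M) (h : ∀ a ∈ S, T (Finsupp.single a 1) ∈ N) (w : α →₀ ℤ)
    (hw : w ∈ Finsupp.supported ℤ ℤ S) : T w ∈ N := by
  have : Finsupp.supported ℤ ℤ S ≤ N.comap T := by
    rw [Finsupp.supported_eq_span_single, Submodule.span_le]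
    rintro _ ⟨a, ha, rfl⟩
    exact h a ha
  exact this hw

theorem sup_eq {α M : Type} [AddCommGroup M] (T1 T2 : (α →₀ ℤ) →ₗ[ℤ] M) (S : Set α)
    (h : ∀ a ∈ S, T1 (Finsupp.single a 1) = T2 (Finsupp.single a 1)) (w : α →₀ ℤ)
    (hw : w ∈ Finsupp.supported ℤ ℤ S) : T1 w = T2 w := by
  have := sup_ind (T1 - T2) S ⊥ (fun a ha => by
    rw [Submodule.mem_bot, LinearMap.sub_apply, h a ha, sub_self]) w hw
  rw [Submodule.mem_bot, LinearMap.sub_apply, sub_eq_zero] at this
  exact this

theorem lin_eq {α M : Type} [AddCommGroup M] (T1 T2 : (α →₀ ℤ) →ₗ[ℤ] M)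
    (h : ∀ a, T1 (Finsupp.single a 1) = T2 (Finsupp.single a 1)) (w : α →₀ ℤ) : T1 w = T2 w :=
  sup_eq T1 T2 Set.univ (fun a _ => h a) w (by rw [Finsupp.supported_univ]; trivial)

theorem single_mem {α : Type} {S : Set α} {a : α} (h : a ∈ S) :
    Finsupp.single a (1 : ℤ) ∈ Finsupp.supported ℤ ℤ S := Finsupp.single_mem_supported ℤ _ h

/-- A general criterion for the quotient of the cycles by the boundaries to be free. -/
theorem quot_free {C I : Type} [AddCommGroup C] (cyc bdry : Submodule ℤ C)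
    (Z : (I →₀ ℤ) →ₗ[ℤ] C) (h1 : ∀ m, Z m ∈ cyc) (h2 : ∀ a ∈ cyc, ∃ m, a - Z m ∈ bdry)
    (h3 : ∀ m, Z m ∈ bdry → m = 0) :
    Nonempty ((cyc ⧸ bdry.submoduleOf cyc) ≃ₗ[ℤ] (I →₀ ℤ)) := by
  let Z' : (I →₀ ℤ) →ₗ[ℤ] cyc := LinearMap.codRestrict cyc Z h1
  let T : (I →₀ ℤ) →ₗ[ℤ] (cyc ⧸ bdry.submoduleOf cyc) := (Submodule.mkQ _).comp Z'
  refine ⟨(LinearEquiv.ofBijective T ⟨?_, ?_⟩).symm⟩
  · rw [← LinearMap.ker_eq_bot, Submodule.eq_bot_iff]
    intro m hm
    rw [LinearMap.mem_ker] at hm
    apply h3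
    have : Z' m ∈ bdry.submoduleOf cyc := by
      rw [← Submodule.Quotient.mk_eq_zero]
      exact hm
    exact this
  · intro q
    obtain ⟨a, rfl⟩ := Submodule.Quotient.mk_surjective _ q
    obtain ⟨m, hm⟩ := h2 a.1 a.2
    refine ⟨m, ?_⟩
    show Submodule.Quotient.mk (Z' m) = Submodule.Quotient.mk a
    rw [eq_comm, Submodule.Quotient.eq]
    exact hm

end algebra

section wl

variable {E : Type} [AddCommGroup E] [Module ℝ E] {ι : Type} (f : ι → (E →ₗ[ℝ] ℝ))

/-- The chains on the pairs (tope, list of topes). -/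
abbrev WW : Type := (Topes f × List (Topes f)) →₀ ℤ

/-- The inclusion of the chains starting at `y`. -/
noncomputable def inn (y : Topes f) : (List (Topes f) →₀ ℤ) →ₗ[ℤ] WW f :=
  Finsupp.lmapDomain ℤ ℤ fun L => (y, L)

/-- The differential (with the sign of magnitude homology). -/
noncomputable def DD : WW f →ₗ[ℤ] WW f :=
  Finsupp.linearCombination ℤ fun p => -(inn f p.1 (bV p.1 p.2))

open Classical in
/-- The component at `y`, of crossing vector `c` and length `n`. -/
noncomputable def pr (y : Topes f) (c : ι → ℕ) (n : ℕ) : WW f →ₗ[ℤ] (List (Topes f) →₀ ℤ) :=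
  Finsupp.linearCombination ℤ fun p =>
    if p.1 = y ∧ cross p.1 p.2 = c ∧ p.2.length = n then Finsupp.single p.2 1 else 0

theorem inn_single (y : Topes f) (L : List (Topes f)) :
    inn f y (Finsupp.single L 1) = Finsupp.single (y, L) 1 := by
  simp [inn, Finsupp.mapDomain_single]

theorem DD_single (y : Topes f) (L : List (Topes f)) :
    DD f (Finsupp.single (y, L) 1) = -(inn f y (bV y L)) := by
  simp [DD]

theorem dV_single (y : Topes f) (L : List (Topes f)) :
    dV f y (Finsupp.single L 1) = bV y L := by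
  simp [dV]

theorem DD_inn (y : Topes f) (u : List (Topes f) →₀ ℤ) : DD f (inn f y u) = -(inn f y (dV f y u)) := by
  refine lin_eq ((DD f).comp (inn f y)) (-((inn f y).comp (dV f y))) (fun L => ?_) u
  rw [LinearMap.comp_apply, LinearMap.neg_apply, LinearMap.comp_apply, inn_single, DD_single, dV_single]

open Classical in
theorem pr_single (y : Topes f) (c : ι → ℕ) (n : ℕ) (y' : Topes f) (L : List (Topes f)) :
    pr f y c n (Finsupp.single (y', L) 1) =
      if y' = y ∧ cross y' L = c ∧ L.length = n then Finsupp.single L 1 else 0 := by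
  rw [pr, Finsupp.linearCombination_single, one_smul]

theorem pr_inn_self (y : Topes f) (c : ι → ℕ) (n : ℕ) (u : List (Topes f) →₀ ℤ)
    (hu : u ∈ Finsupp.supported ℤ ℤ {L | cross y L = c ∧ L.length = n}) :
    pr f y c n (inn f y u) = u := by
  classical
  refine sup_eq ((pr f y c n).comp (inn f y)) LinearMap.id _ (fun L hL => ?_) u hu
  rw [LinearMap.comp_apply, inn_single, pr_single, if_pos ⟨rfl, hL.1, hL.2⟩, LinearMap.id_apply]

theorem pr_inn_other (y : Topes f) (c : ι → ℕ) (n : ℕ) (y' : Topes f) (u : List (Topes f) →₀ ℤ)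
    (hu : u ∈ Finsupp.supported ℤ ℤ {L | ¬ (y' = y ∧ cross y' L = c ∧ L.length = n)}) :
    pr f y c n (inn f y' u) = 0 := by
  classical
  refine sup_eq ((pr f y c n).comp (inn f y')) 0 _ (fun L hL => ?_) u hu
  rw [LinearMap.comp_apply, inn_single, pr_single, if_neg hL, LinearMap.zero_apply]

/-- Deleting an entry on a geodesic does not change the crossing vector. -/
theorem cross_del {y z x : Topes f} {L : List (Topes f)} (h : geo y z x) :
    cross y (z :: x :: L) = cross y (x :: L) := by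
  classical
  funext i
  have h1 := h i
  have hy := y.2.2 i
  have hz := z.2.2 i
  have hx := x.2.2 i
  show (if y.1 i ≠ z.1 i then 1 else 0) + ((if z.1 i ≠ x.1 i then 1 else 0) + cross x L i)
    = (if y.1 i ≠ x.1 i then 1 else 0) + cross x L i
  by_cases h2 : y.1 i = z.1 i
  · rw [if_neg (not_not.2 h2), h2, zero_add]
  · have h3 : z.1 i = x.1 i := by
      by_contra h3
      exact h1 ⟨h2, h3⟩
    rw [if_pos h2, if_neg (not_not.2 h3), ← h3, if_pos h2, zero_add]

theorem bV_supp (L : List (Topes f)) : ∀ y : Topes f,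
    bV y L ∈ Finsupp.supported ℤ ℤ {L' | L'.length + 1 = L.length ∧ cross y L' = cross y L} := by
  classical
  induction L with
  | nil =>
    intro y
    rw [bV]
    exact Submodule.zero_mem _
  | cons z l ih =>
    intro y
    rw [bV]
    refine Submodule.sub_mem _ ?_ ?_
    · split_ifs with h
      · obtain ⟨x, l', rfl, hg⟩ := h
        refine single_mem ⟨rfl, ?_⟩
        exact (cross_del f hg).symm
      · exact Submodule.zero_mem _
    · refine sup_ind (consL z) {L' | L'.length + 1 = l.length ∧ cross z L' = cross z l} _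
        (fun L' hL' => ?_) _ (ih z)
      rw [consL, Finsupp.lmapDomain_apply, Finsupp.mapDomain_single]
      refine single_mem ⟨?_, ?_⟩
      · rw [List.length_cons, List.length_cons, hL'.1]
      · funext i
        show _ + cross z L' i = _ + cross z l i
        rw [hL'.2]

theorem pr_DD (y : Topes f) (c : ι → ℕ) (n : ℕ) (w : WW f) :
    pr f y c n (DD f w) = -(dV f y (pr f y c (n + 1) w)) := by
  classical
  refine lin_eq ((pr f y c n).comp (DD f)) (-((dV f y).comp (pr f y c (n + 1)))) (fun p => ?_) w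
  obtain ⟨y', L⟩ := p
  rw [LinearMap.comp_apply, LinearMap.neg_apply, LinearMap.comp_apply, DD_single, pr_single, map_neg]
  congr 1
  by_cases h : y' = y ∧ cross y' L = c ∧ L.length = n + 1
  · rw [if_pos h, dV_single]
    obtain ⟨rfl, h2, h3⟩ := h
    apply pr_inn_self
    refine Finsupp.supported_mono ?_ (bV_supp f L y')
    rintro L' ⟨h4, h5⟩
    exact ⟨h5.trans h2, by omega⟩
  · rw [if_neg h, map_zero]
    apply pr_inn_other
    refine Finsupp.supported_mono ?_ (bV_supp f L y')
    rintro L' ⟨h4, h5⟩ ⟨h6, h7, h8⟩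
    exact h ⟨h6, h5.symm.trans h7, by omega⟩

/-- The basis of the chains of length `n` and total crossing number `l`. -/
def SS [Fintype ι] (n l : ℕ) : Set (Topes f × List (Topes f)) :=
  {p | p.2.length = n ∧ red p.1 p.2 ∧ ∑ i, cross p.1 p.2 i = l}

theorem pr_supp [Fintype ι] (y : Topes f) (c : ι → ℕ) (n l : ℕ) (w : WW f)
    (hw : w ∈ Finsupp.supported ℤ ℤ (SS f n l)) :
    pr f y c n w ∈ Finsupp.supported ℤ ℤ {L | L ∈ cells f y c ∧ L.length = n ∧ ∑ i, c i = l} := by
  classical
  refine sup_ind (pr f y c n) (SS f n l) _ (fun p hp => ?_) w hw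
  obtain ⟨y', L⟩ := p
  rw [pr_single]
  split_ifs with h
  · obtain ⟨rfl, h2, h3⟩ := h
    refine single_mem ⟨⟨hp.2.1, h2⟩, h3, ?_⟩
    rw [← h2]
    exact hp.2.2
  · exact Submodule.zero_mem _

/-- A chain is in a submodule if all its components are. -/
theorem mem_of_pr (n : ℕ) (w : WW f) (hw : w ∈ Finsupp.supported ℤ ℤ {p | p.2.length = n})
    (M : Submodule ℤ (WW f)) (h : ∀ y c, inn f y (pr f y c n w) ∈ M) : w ∈ M := by
  classical
  let K : Finset (Topes f × (ι → ℕ)) := w.support.image fun p => (p.1, cross p.1 p.2)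
  let T : WW f →ₗ[ℤ] WW f := ∑ q ∈ K, (inn f q.1).comp (pr f q.1 q.2 n)
  have hT : T w = w := by
    refine sup_eq T LinearMap.id {p | p.2.length = n ∧ (p.1, cross p.1 p.2) ∈ K} (fun p hp => ?_) w ?_
    · obtain ⟨y, L⟩ := p
      rw [LinearMap.id_apply]
      simp only [T, LinearMap.sum_apply, LinearMap.comp_apply]
      rw [Finset.sum_eq_single_of_mem (y, cross y L) hp.2]
      · rw [pr_single, if_pos ⟨rfl, rfl, hp.1⟩, inn_single]
      · rintro ⟨y', c⟩ _ hne
        rw [pr_single, if_neg, map_zero]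
        rintro ⟨h1, h2, _⟩
        apply hne
        have h1' : y = y' := h1
        have h2' : cross y L = c := h2
        rw [← h1', ← h2']
    · intro p hp
      exact ⟨hw hp, Finset.mem_image.2 ⟨p, hp, rfl⟩⟩
  rw [← hT]
  simp only [T, LinearMap.sum_apply, LinearMap.comp_apply]
  exact M.sum_mem fun q _ => h q.1 q.2

open Classical in
/-- The part of length `n`. -/
noncomputable def lp (n : ℕ) : (List (Topes f) →₀ ℤ) →ₗ[ℤ] (List (Topes f) →₀ ℤ) :=
  Finsupp.linearCombination ℤ fun L => if L.length = n then Finsupp.single L 1 else 0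

open Classical in
theorem lp_single (n : ℕ) (L : List (Topes f)) :
    lp f n (Finsupp.single L 1) = if L.length = n then Finsupp.single L 1 else 0 := by
  rw [lp, Finsupp.linearCombination_single, one_smul]

theorem lp_self (n : ℕ) (u : List (Topes f) →₀ ℤ)
    (hu : u ∈ Finsupp.supported ℤ ℤ {L | L.length = n}) : lp f n u = u := by
  classical
  refine sup_eq (lp f n) LinearMap.id _ (fun L hL => ?_) u hu
  have hL' : L.length = n := hL
  rw [lp_single, if_pos hL', LinearMap.id_apply]

theorem lp_other (n : ℕ) (u : List (Topes f) →₀ ℤ)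
    (hu : u ∈ Finsupp.supported ℤ ℤ {L | L.length ≠ n}) : lp f n u = 0 := by
  classical
  refine sup_eq (lp f n) 0 _ (fun L hL => ?_) u hu
  rw [lp_single, if_neg hL, LinearMap.zero_apply]

theorem lp_dV (n : ℕ) (y : Topes f) (u : List (Topes f) →₀ ℤ) :
    lp f n (dV f y u) = dV f y (lp f (n + 1) u) := by
  classical
  refine lin_eq ((lp f n).comp (dV f y)) ((dV f y).comp (lp f (n + 1))) (fun L => ?_) u
  rw [LinearMap.comp_apply, LinearMap.comp_apply, dV_single, lp_single]
  split_ifs with h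
  · rw [dV_single]
    apply lp_self
    refine Finsupp.supported_mono ?_ (bV_supp f L y)
    rintro L' ⟨h4, _⟩
    show L'.length = n
    omega
  · rw [map_zero]
    apply lp_other
    refine Finsupp.supported_mono ?_ (bV_supp f L y)
    rintro L' ⟨h4, _⟩
    show L'.length ≠ n
    omega

theorem lp_supp (n : ℕ) (y : Topes f) (c : ι → ℕ) (u : List (Topes f) →₀ ℤ)
    (hu : u ∈ Finsupp.supported ℤ ℤ (cells f y c)) :
    lp f n u ∈ Finsupp.supported ℤ ℤ {L | L ∈ cells f y c ∧ L.length = n} := by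
  classical
  refine sup_ind (lp f n) _ _ (fun L hL => ?_) u hu
  rw [lp_single]
  split_ifs with h
  · exact single_mem ⟨hL, h⟩
  · exact Submodule.zero_mem _

theorem inn_supp [Fintype ι] (n l : ℕ) (y : Topes f) (c : ι → ℕ) (hc : ∑ i, c i = l)
    (u : List (Topes f) →₀ ℤ)
    (hu : u ∈ Finsupp.supported ℤ ℤ {L | L ∈ cells f y c ∧ L.length = n}) :
    inn f y u ∈ Finsupp.supported ℤ ℤ (SS f n l) := by
  refine sup_ind (inn f y) _ _ (fun L hL => ?_) u hu
  rw [inn_single]
  refine single_mem ⟨hL.2, hL.1.1, ?_⟩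
  rw [hL.1.2]
  exact hc

/-- The statements of the main induction. -/
structure MainHyp [FiniteDimensional ℝ E] [Fintype ι] : Prop where
  bad : ∀ (y : Topes f) (c : ι → ℕ), ¬ good y c → ∀ x ∈ Finsupp.supported ℤ ℤ (cells f y c),
    dV f y x = 0 → ∃ u ∈ Finsupp.supported ℤ ℤ (cells f y c), dV f y u = x
  good : ∀ (y : Topes f) (c : ι → ℕ), good y c → ∃ z ∈ Finsupp.supported ℤ ℤ (cells f y c),
    dV f y z = 0 ∧ (∀ l ∈ z.support, l.length = degc f c) ∧
      (∀ x ∈ Finsupp.supported ℤ ℤ (cells f y c), dV f y x = 0 →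
        ∃ m : ℤ, ∃ u ∈ Finsupp.supported ℤ ℤ (cells f y c), x = m • z + dV f y u) ∧
      ∀ (m : ℤ), ∀ u ∈ Finsupp.supported ℤ ℤ (cells f y c), m • z = dV f y u → m = 0

/-- The homology at the level of pairs. -/
theorem wl_main [FiniteDimensional ℝ E] [Fintype ι] (hyp : MainHyp f) (k l : ℕ) :
    ∃ Z : (Idx f k l →₀ ℤ) →ₗ[ℤ] WW f,
      (∀ m, Z m ∈ Finsupp.supported ℤ ℤ (SS f k l)) ∧ (∀ m, DD f (Z m) = 0) ∧
      (∀ w ∈ Finsupp.supported ℤ ℤ (SS f k l), DD f w = 0 →
        ∃ m, ∃ v ∈ Finsupp.supported ℤ ℤ (SS f (k + 1) l), w = Z m + DD f v) ∧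
      (∀ m, ∀ v ∈ Finsupp.supported ℤ ℤ (SS f (k + 1) l), Z m = DD f v → m = 0) := by
  classical
  choose z hz1 hz2 hz3 hz4 hz5 using hyp.good
  let ζ : Idx f k l → WW f := fun p => inn f p.1.1 (z p.1.1 p.1.2 p.2.1)
  have hζ1 : ∀ p : Idx f k l, z p.1.1 p.1.2 p.2.1 ∈
      Finsupp.supported ℤ ℤ {L | L ∈ cells f p.1.1 p.1.2 ∧ L.length = k} := by
    intro p L hL
    refine ⟨hz1 _ _ p.2.1 hL, ?_⟩
    rw [hz3 _ _ p.2.1 L hL]
    exact p.2.2.2
  have hζ2 : ∀ p, ζ p ∈ Finsupp.supported ℤ ℤ (SS f k l) := fun p =>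
    inn_supp f k l p.1.1 p.1.2 p.2.2.1 _ (hζ1 p)
  have hζ3 : ∀ p, DD f (ζ p) = 0 := fun p => by
    rw [DD_inn, hz2, map_zero, neg_zero]
  let Z : (Idx f k l →₀ ℤ) →ₗ[ℤ] WW f := Finsupp.linearCombination ℤ ζ
  have hZs : ∀ p, Z (Finsupp.single p 1) = ζ p := fun p => by
    rw [Finsupp.linearCombination_single, one_smul]
  refine ⟨Z, ?_, ?_, ?_, ?_⟩
  · intro m
    refine sup_ind Z Set.univ _ (fun p _ => ?_) m (by rw [Finsupp.supported_univ]; trivial)
    rw [hZs]
    exact hζ2 p
  · intro m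
    exact lin_eq ((DD f).comp Z) 0 (fun p => by
      rw [LinearMap.comp_apply, hZs, hζ3, LinearMap.zero_apply]) m
  · intro w hw hDw
    let M : Submodule ℤ (WW f) := LinearMap.range Z ⊔
      (Finsupp.supported ℤ ℤ (SS f (k + 1) l)).map (DD f)
    have hM : w ∈ M := by
      refine mem_of_pr f k w (Finsupp.supported_mono (fun p hp => hp.1) hw) M fun y c => ?_
      by_cases h0 : pr f y c k w = 0
      · rw [h0, map_zero]
        exact M.zero_mem
      have hx := pr_supp f y c k l w hw
      have hsum : ∑ i, c i = l := by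
        obtain ⟨L, hL⟩ := Finsupp.support_nonempty_iff.2 h0
        exact (hx hL).2.2
      have hx1 : pr f y c k w ∈ Finsupp.supported ℤ ℤ (cells f y c) :=
        Finsupp.supported_mono (fun L hL => hL.1) hx
      have hx2 : pr f y c k w ∈ Finsupp.supported ℤ ℤ {L : List (Topes f) | L.length = k} :=
        Finsupp.supported_mono (fun L hL => hL.2.1) hx
      have hdx : dV f y (pr f y c k w) = 0 := by
        rcases k with _ | n
        · refine sup_eq (dV f y) 0 {L : List (Topes f) | L.length = 0} (fun L hL => ?_) _ hx2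
          have : L = [] := List.length_eq_zero_iff.1 hL
          rw [dV_single, this, bV, LinearMap.zero_apply]
        · have := pr_DD f y c n w
          rw [hDw, map_zero, eq_comm, neg_eq_zero] at this
          exact this
      -- boundaries are in `M`
      have hbd : ∀ u ∈ Finsupp.supported ℤ ℤ (cells f y c),
          inn f y (dV f y (lp f (k + 1) u)) ∈ M := by
        intro u hu
        refine Submodule.mem_sup_right ⟨-(inn f y (lp f (k + 1) u)), ?_, ?_⟩
        · exact Submodule.neg_mem _ (inn_supp f (k + 1) l y c hsum _ (lp_supp f (k + 1) y c u hu))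
        · rw [map_neg, DD_inn, neg_neg]
      by_cases hg : Pool.Agent.V8H14.MHA.good y c
      · obtain ⟨m, u, hu, hmu⟩ := hz4 y c hg _ hx1 hdx
        have e1 : pr f y c k w = m • lp f k (z y c hg) + dV f y (lp f (k + 1) u) := by
          rw [← lp_dV, ← map_smul, ← map_add, ← hmu, lp_self f k _ hx2]
        rw [e1, map_add, map_smul]
        refine M.add_mem (M.smul_mem _ ?_) (hbd u hu)
        by_cases hk : degc f c = k
        · let p : Idx f k l := ⟨(y, c), hg, hsum, hk⟩
          have e2 : lp f k (z y c hg) = z y c hg := lp_self f k _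
            (Finsupp.supported_mono (fun L hL => hL.2) (hζ1 p))
          rw [e2]
          exact Submodule.mem_sup_left ⟨Finsupp.single p 1, hZs p⟩
        · have e2 : lp f k (z y c hg) = 0 := by
            apply lp_other
            intro L hL
            show L.length ≠ k
            rw [hz3 y c hg L hL]
            exact hk
          rw [e2, map_zero]
          exact M.zero_mem
      · obtain ⟨u, hu, hmu⟩ := hyp.bad y c hg _ hx1 hdx
        have e1 : pr f y c k w = dV f y (lp f (k + 1) u) := by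
          rw [← lp_dV, hmu, lp_self f k _ hx2]
        rw [e1]
        exact hbd u hu
    obtain ⟨a, ⟨m, rfl⟩, b, ⟨v, hv, rfl⟩, hab⟩ := Submodule.mem_sup.1 hM
    exact ⟨m, v, hv, hab.symm⟩
  · intro m v hv hm
    ext p
    rw [Finsupp.zero_apply]
    apply hz5 p.1.1 p.1.2 p.2.1 (m p) (-(pr f p.1.1 p.1.2 (k + 1) v))
    · exact Submodule.neg_mem _ (Finsupp.supported_mono (fun L hL => hL.1)
        (pr_supp f p.1.1 p.1.2 (k + 1) l v hv))
    · rw [map_neg, ← pr_DD, ← hm]
      have key : ∀ q : Idx f k l, pr f p.1.1 p.1.2 k (ζ q) =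
          if q = p then z p.1.1 p.1.2 p.2.1 else 0 := by
        intro q
        split_ifs with h
        · subst h
          refine pr_inn_self f _ _ _ _ (Finsupp.supported_mono ?_ (hζ1 q))
          rintro L ⟨⟨_, h2⟩, h3⟩
          exact ⟨h2, h3⟩
        · apply pr_inn_other
          refine Finsupp.supported_mono ?_ (hζ1 q)
          rintro L ⟨⟨_, h2⟩, h3⟩ ⟨h4, h5, _⟩
          apply h
          apply Subtype.ext
          apply Prod.ext
          · exact h4
          · exact h2.symm.trans h5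
      have h1 := lin_eq ((pr f p.1.1 p.1.2 k).comp Z)
        ((LinearMap.toSpanSingleton ℤ _ (z p.1.1 p.1.2 p.2.1)).comp (Finsupp.lapply p)) (fun q => by
          rw [LinearMap.comp_apply, hZs, key, LinearMap.comp_apply, Finsupp.lapply_apply,
            LinearMap.toSpanSingleton_apply, Finsupp.single_apply]
          split_ifs
          · rw [one_smul]
          · rw [zero_smul]) m
      rw [LinearMap.comp_apply, LinearMap.comp_apply, Finsupp.lapply_apply,
        LinearMap.toSpanSingleton_apply] at h1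
      exact h1.symm

end wl

end Pool.Agent.V8H61.MD
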