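import Pool.Agent.V8H61.MD.Dist
import Pool.Agent.V8H61.MD.Wl
import Pool.Agent.V8H61.MC.Forms
import Pool.Agent.R142.MagHom

/-!
# The magnitude homology of the tope graph
-/

set_option autoImplicit false

namespace Pool.Agent.V8H61.MD

open Pool.Agent.V8H14.MHA Pool.Agent.R142 Pool.Agent.V8H61.MC

variable {d : ℕ} {ι : Type} [Fintype ι] (f : ι → ((Fin d → ℝ) →ₗ[ℝ] ℝ))

/-- The pair (tope, list of topes) of a tuple of chambers. -/
noncomputable def JJ (k : ℕ) (x : Fin (k + 1) → Arr.Chamber (Arr.arr f)) :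
    Topes f × List (Topes f) :=
  (tope f (x 0), List.ofFn fun i : Fin k => tope f (x i.succ))

theorem JJ_injective (k : ℕ) : Function.Injective (JJ f k) := by
  intro x y h
  have h1 : tope f (x 0) = tope f (y 0) := congrArg Prod.fst h
  have h2 : (List.ofFn fun i : Fin k => tope f (x i.succ)) = List.ofFn fun i : Fin k => tope f (y i.succ) :=
    congrArg Prod.snd h
  have h3 := List.ofFn_injective h2
  funext i
  apply (tope_bijective f).1
  refine Fin.cases h1 (fun j => ?_) i
  exact congrFun h3 j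

theorem exists_JJ (k : ℕ) (p : Topes f × List (Topes f)) (hp : p.2.length = k) :
    ∃ x, JJ f k x = p := by
  subst hp
  choose ch hch using (tope_bijective f).2
  refine ⟨Fin.cons (ch p.1) fun i => ch (p.2.get i), ?_⟩
  apply Prod.ext
  · show tope f ((Fin.cons (ch p.1) (fun i => ch (p.2.get i)) : Fin (p.2.length + 1) → _) 0) = p.1
    rw [Fin.cons_zero, hch]
  · show List.ofFn (fun i : Fin p.2.length => tope f
      ((Fin.cons (ch p.1) (fun i => ch (p.2.get i)) : Fin (p.2.length + 1) → _) i.succ)) = p.2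
    simp only [Fin.cons_succ, hch]
    exact List.ofFn_get p.2

open Classical in
/-- The tuple of a pair. -/
noncomputable def tup (k : ℕ) (p : Topes f × List (Topes f)) : Fin (k + 1) → Arr.Chamber (Arr.arr f) :=
  if h : ∃ x, JJ f k x = p then h.choose else fun _ => ((tope_bijective f).2 p.1).choose

theorem JJ_tup (k : ℕ) (p : Topes f × List (Topes f)) (hp : p.2.length = k) : JJ f k (tup f k p) = p := by
  have h := exists_JJ f k p hp
  rw [tup, dif_pos h]
  exact h.choose_spec

/-- The map on chains. -/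
noncomputable def Jl (k : ℕ) : ((Fin (k + 1) → Arr.Chamber (Arr.arr f)) →₀ ℤ) →ₗ[ℤ] WW f :=
  Finsupp.lmapDomain ℤ ℤ (JJ f k)

/-- The lift of chains. -/
noncomputable def lft (k : ℕ) : WW f →ₗ[ℤ] ((Fin (k + 1) → Arr.Chamber (Arr.arr f)) →₀ ℤ) :=
  Finsupp.lmapDomain ℤ ℤ (tup f k)

theorem Jl_single (k : ℕ) (x : Fin (k + 1) → Arr.Chamber (Arr.arr f)) :
    Jl f k (Finsupp.single x 1) = Finsupp.single (JJ f k x) 1 := by
  simp [Jl, Finsupp.mapDomain_single]

theorem lft_single (k : ℕ) (p : Topes f × List (Topes f)) :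
    lft f k (Finsupp.single p 1) = Finsupp.single (tup f k p) 1 := by
  simp [lft, Finsupp.mapDomain_single]

theorem Jl_injective (k : ℕ) : Function.Injective (Jl f k) :=
  Finsupp.mapDomain_injective (JJ_injective f k)

theorem Jl_lft (k : ℕ) (w : WW f) (hw : w ∈ Finsupp.supported ℤ ℤ {p | p.2.length = k}) :
    Jl f k (lft f k w) = w := by
  refine sup_eq ((Jl f k).comp (lft f k)) LinearMap.id _ (fun p hp => ?_) w hw
  rw [LinearMap.comp_apply, lft_single, Jl_single, JJ_tup f k p hp, LinearMap.id_apply]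

theorem JJ_succ (k : ℕ) (x : Fin (k + 2) → Arr.Chamber (Arr.arr f)) :
    JJ f (k + 1) x = (tope f (x 0), (JJ f k fun i => x i.succ).1 :: (JJ f k fun i => x i.succ).2) := by
  rw [JJ, JJ, List.ofFn_succ]

theorem red_iff (k : ℕ) : ∀ x : Fin (k + 1) → Arr.Chamber (Arr.arr f),
    red (JJ f k x).1 (JJ f k x).2 ↔ ∀ i : Fin k, x i.castSucc ≠ x i.succ := by
  induction k with
  | zero =>
    intro x
    have : (JJ f 0 x).2 = [] := by rw [JJ, List.ofFn_zero]
    rw [this]
    exact ⟨fun _ i => i.elim0, fun _ => trivial⟩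
  | succ k ih =>
    intro x
    rw [JJ_succ, Fin.forall_fin_succ]
    show (tope f (x 0) ≠ tope f (x (0 : Fin (k + 1)).succ) ∧ red (JJ f k fun i => x i.succ).1
      (JJ f k fun i => x i.succ).2) ↔ _
    rw [ih, (tope_bijective f).1.ne_iff]
    rfl

theorem sum_cross (hf : ∀ i, f i ≠ 0) (hinj : Function.Injective fun i => LinearMap.ker (f i))
    (k : ℕ) : ∀ x : Fin (k + 1) → Arr.Chamber (Arr.arr f),
    ∑ i, cross (JJ f k x).1 (JJ f k x).2 i
      = ∑ i : Fin k, (Arr.topeGraph (Arr.arr f)).dist (x i.castSucc) (x i.succ) := by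
  classical
  induction k with
  | zero =>
    intro x
    have : (JJ f 0 x).2 = [] := by rw [JJ, List.ofFn_zero]
    rw [this]
    simp [cross]
  | succ k ih =>
    intro x
    rw [JJ_succ, Fin.sum_univ_succ]
    have e1 : ∀ i, cross (tope f (x 0)) ((JJ f k fun i => x i.succ).1 :: (JJ f k fun i => x i.succ).2) i
        = (if (tope f (x 0)).1 i ≠ (tope f (x (0 : Fin (k + 1)).succ)).1 i then 1 else 0) +
          cross (JJ f k fun i => x i.succ).1 (JJ f k fun i => x i.succ).2 i := fun i => rfl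
    simp only [e1]
    rw [Finset.sum_add_distrib, ih, ← dist_tope f hf hinj]
    rfl

theorem mem_SS_iff (hf : ∀ i, f i ≠ 0) (hinj : Function.Injective fun i => LinearMap.ker (f i))
    (k l : ℕ) (x : Fin (k + 1) → Arr.Chamber (Arr.arr f)) :
    JJ f k x ∈ SS f k l ↔ x ∈ MagHom.Tuples (Arr.topeGraph (Arr.arr f)) k l := by
  constructor
  · rintro ⟨_, h2, h3⟩
    exact ⟨(red_iff f k x).1 h2, by rw [← sum_cross f hf hinj]; exact h3⟩
  · rintro ⟨h2, h3⟩
    refine ⟨?_, (red_iff f k x).2 h2, by rw [sum_cross f hf hinj]; exact h3⟩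
    rw [JJ, List.length_ofFn]

theorem geo_iff (hf : ∀ i, f i ≠ 0) (hinj : Function.Injective fun i => LinearMap.ker (f i))
    (a b c : Arr.Chamber (Arr.arr f)) :
    (Arr.topeGraph (Arr.arr f)).dist a c = (Arr.topeGraph (Arr.arr f)).dist a b +
      (Arr.topeGraph (Arr.arr f)).dist b c ↔ geo (tope f a) (tope f b) (tope f c) := by
  classical
  rw [dist_tope f hf hinj, dist_tope f hf hinj, dist_tope f hf hinj, ← Finset.sum_add_distrib]
  have hle : ∀ i ∈ (Finset.univ : Finset ι),
      (if (tope f a).1 i ≠ (tope f c).1 i then 1 else 0) ≤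
      (if (tope f a).1 i ≠ (tope f b).1 i then 1 else 0) +
        (if (tope f b).1 i ≠ (tope f c).1 i then 1 else 0) := by
    intro i _
    by_cases h1 : (tope f a).1 i = (tope f b).1 i
    · rw [h1]
      omega
    · rw [if_pos h1]
      split_ifs <;> omega
  rw [Finset.sum_eq_sum_iff_of_le hle]
  have hpm : ∀ (C : Arr.Chamber (Arr.arr f)) i, (tope f C).1 i = 1 ∨ (tope f C).1 i = -1 := by
    intro C i
    rw [tope_apply]
    split_ifs
    · exact Or.inl rfl
    · exact Or.inr rfl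
  constructor
  · rintro h i ⟨h1, h2⟩
    have := h i (Finset.mem_univ i)
    rw [if_pos h1, if_pos h2] at this
    split_ifs at this
    omega
  · intro h i _
    have hi := h i
    by_cases h1 : (tope f a).1 i = (tope f b).1 i
    · rw [h1, if_neg (not_not.2 (rfl : (tope f b).1 i = (tope f b).1 i)), zero_add]
    · have h2 : (tope f b).1 i = (tope f c).1 i := by
        by_contra h2
        exact hi ⟨h1, h2⟩
      rw [← h2, if_pos h1, if_neg (not_not.2 (rfl : (tope f b).1 i = (tope f b).1 i))]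

/-- Prepending a tope to a pair. -/
noncomputable def KK (y : Topes f) : WW f →ₗ[ℤ] WW f :=
  Finsupp.lmapDomain ℤ ℤ fun p => (y, p.1 :: p.2)

omit [Fintype ι] in
theorem KK_single (y : Topes f) (p : Topes f × List (Topes f)) :
    KK f y (Finsupp.single p 1) = Finsupp.single (y, p.1 :: p.2) 1 := by
  simp [KK, Finsupp.mapDomain_single]

omit [Fintype ι] in
theorem KK_inn (y z : Topes f) (u : List (Topes f) →₀ ℤ) :
    KK f y (inn f z u) = inn f y (consL z u) := by
  refine lin_eq ((KK f y).comp (inn f z)) ((inn f y).comp (consL z)) (fun L => ?_) u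
  rw [LinearMap.comp_apply, LinearMap.comp_apply, inn_single, KK_single, consL,
    Finsupp.lmapDomain_apply, Finsupp.mapDomain_single, inn_single]

theorem Jl_face_succ (k : ℕ) (x : Fin (k + 3) → Arr.Chamber (Arr.arr f)) (i : Fin k) :
    Jl f (k + 1) (MagHom.face (Arr.topeGraph (Arr.arr f)) (k + 1) x i.succ)
      = KK f (tope f (x 0)) (Jl f k (MagHom.face (Arr.topeGraph (Arr.arr f)) k (fun j => x j.succ) i)) := by
  classical
  rw [MagHom.face, MagHom.face]
  simp only [Fin.castSucc_succ]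
  split_ifs with h
  · rw [Jl_single, Jl_single, KK_single, JJ_succ]
    simp only [Fin.succ_succAbove_zero, Fin.succ_succAbove_succ]
  · rw [map_zero, map_zero, map_zero]

theorem Jl_face_zero (hf : ∀ i, f i ≠ 0) (hinj : Function.Injective fun i => LinearMap.ker (f i))
    (k : ℕ) (x : Fin (k + 3) → Arr.Chamber (Arr.arr f)) :
    Jl f (k + 1) (MagHom.face (Arr.topeGraph (Arr.arr f)) (k + 1) x 0)
      = inn f (tope f (x 0)) (bV (tope f (x 0)) (JJ f (k + 2) x).2
        + consL (tope f (x 1)) (bV (tope f (x 1)) (JJ f (k + 1) fun i => x i.succ).2)) := by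
  classical
  have e1 : (JJ f (k + 2) x).2 = tope f (x 1) :: (JJ f (k + 1) fun i => x i.succ).2 := by
    rw [JJ_succ]; rfl
  have e2 : (JJ f (k + 1) fun i => x i.succ).2 = tope f (x 2) :: (JJ f k fun i => x i.succ.succ).2 := by
    rw [JJ_succ]; rfl
  rw [e1, bV, sub_add_cancel, MagHom.face]
  have hc : ((Arr.topeGraph (Arr.arr f)).dist (x (0 : Fin (k + 1)).castSucc.castSucc)
      (x (0 : Fin (k + 1)).succ.succ) = (Arr.topeGraph (Arr.arr f)).dist
      (x (0 : Fin (k + 1)).castSucc.castSucc) (x (0 : Fin (k + 1)).succ.castSucc) +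
      (Arr.topeGraph (Arr.arr f)).dist (x (0 : Fin (k + 1)).succ.castSucc)
      (x (0 : Fin (k + 1)).succ.succ)) ↔
      ∃ x' l', (JJ f (k + 1) fun i => x i.succ).2 = x' :: l' ∧ geo (tope f (x 0)) (tope f (x 1)) x' := by
    rw [geo_iff f hf hinj]
    constructor
    · intro h
      exact ⟨_, _, e2, h⟩
    · rintro ⟨x', l', h1, h2⟩
      rw [e2] at h1
      have h3 : tope f (x 2) = x' := (List.cons.inj h1).1
      rw [← h3] at h2
      exact h2
  by_cases h : ∃ x' l', (JJ f (k + 1) fun i => x i.succ).2 = x' :: l' ∧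
      geo (tope f (x 0)) (tope f (x 1)) x'
  · rw [if_pos (hc.2 h), if_pos h, Jl_single, inn_single]
    congr 1
  · rw [if_neg (fun h' => h (hc.1 h')), if_neg h, map_zero, map_zero]

theorem Jl_bd (hf : ∀ i, f i ≠ 0) (hinj : Function.Injective fun i => LinearMap.ker (f i)) (k : ℕ) :
    ∀ a, Jl f k (MagHom.bd (Arr.topeGraph (Arr.arr f)) k a) = DD f (Jl f (k + 1) a) := by
  classical
  induction k with
  | zero =>
    intro a
    refine lin_eq ((Jl f 0).comp (MagHom.bd (Arr.topeGraph (Arr.arr f)) 0))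
      ((DD f).comp (Jl f 1)) (fun x => ?_) a
    rw [LinearMap.comp_apply, LinearMap.comp_apply, MagHom.bd_single, Jl_single, JJ_succ, DD_single]
    have : (JJ f 0 fun i => x i.succ).2 = [] := by rw [JJ, List.ofFn_zero]
    rw [this, bV, bV, map_zero, sub_zero, if_neg, map_zero, neg_zero]
    · simp
    · rintro ⟨x', l', h, _⟩
      exact absurd h (List.cons_ne_nil _ _).symm
  | succ k ih =>
    intro a
    refine lin_eq ((Jl f (k + 1)).comp (MagHom.bd (Arr.topeGraph (Arr.arr f)) (k + 1)))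
      ((DD f).comp (Jl f (k + 2))) (fun x => ?_) a
    have e1 : JJ f (k + 2) x = (tope f (x 0), (JJ f (k + 2) x).2) := rfl
    rw [LinearMap.comp_apply, LinearMap.comp_apply, MagHom.bd_single, Jl_single, e1, DD_single,
      Fin.sum_univ_succ, map_add, map_sum]
    have e2 : ∀ i : Fin k, Jl f (k + 1) ((-1 : ℤ) ^ (i.succ.1 + 1) •
        MagHom.face (Arr.topeGraph (Arr.arr f)) (k + 1) x i.succ)
        = -(KK f (tope f (x 0)) (Jl f k ((-1 : ℤ) ^ (i.1 + 1) •
          MagHom.face (Arr.topeGraph (Arr.arr f)) k (fun j => x j.succ) i))) := by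
      intro i
      rw [map_smul, map_smul, map_smul, Jl_face_succ, ← neg_smul]
      congr 1
      rw [Fin.val_succ, pow_succ (-1 : ℤ) (i.1 + 1)]
      ring
    rw [Finset.sum_congr rfl fun i _ => e2 i, Finset.sum_neg_distrib, ← map_sum, ← map_sum,
      ← MagHom.bd_single, ih, Jl_single]
    have e3 : JJ f (k + 1) (fun j => x j.succ) = (tope f (x 1), (JJ f (k + 1) fun j => x j.succ).2) := rfl
    rw [e3, DD_single, map_neg, neg_neg, KK_inn, map_smul, Jl_face_zero f hf hinj, map_add]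
    simp

theorem mh_arr (hf : ∀ i, f i ≠ 0) (hinj : Function.Injective fun i => LinearMap.ker (f i))
    (hyp : MainHyp f) (k l : ℕ) :
    Nonempty (MagHom.MH (Arr.topeGraph (Arr.arr f)) k l ≃ₗ[ℤ] (Idx f k l →₀ ℤ)) := by
  classical
  obtain ⟨Z, hZ1, hZ2, hZ3, hZ4⟩ := wl_main f hyp k l
  have hlen : ∀ n m, Finsupp.supported ℤ ℤ (SS f n m) ≤
      Finsupp.supported ℤ ℤ {p : Topes f × List (Topes f) | p.2.length = n} := fun n m =>
    Finsupp.supported_mono fun p hp => hp.1
  -- lifts of chains are chains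
  have hl : ∀ n m w, w ∈ Finsupp.supported ℤ ℤ (SS f n m) →
      lft f n w ∈ MagHom.MC (Arr.topeGraph (Arr.arr f)) n m := by
    intro n m w hw
    refine sup_ind (lft f n) _ _ (fun p hp => ?_) w hw
    rw [lft_single]
    refine single_mem ?_
    rw [← mem_SS_iff f hf hinj, JJ_tup f n p hp.1]
    exact hp
  have hJ : ∀ n m a, a ∈ MagHom.MC (Arr.topeGraph (Arr.arr f)) n m →
      Jl f n a ∈ Finsupp.supported ℤ ℤ (SS f n m) := by
    intro n m a ha
    refine sup_ind (Jl f n) _ _ (fun x hx => ?_) a ha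
    rw [Jl_single]
    exact single_mem ((mem_SS_iff f hf hinj n m x).2 hx)
  refine quot_free _ _ ((lft f k).comp Z) ?_ ?_ ?_
  · intro m
    have h1 := hl k l _ (hZ1 m)
    rcases k with _ | n
    · exact h1
    · refine ⟨h1, ?_⟩
      show MagHom.bd _ n (lft f (n + 1) (Z m)) = 0
      apply Jl_injective f n
      rw [Jl_bd f hf hinj, Jl_lft f _ _ (hlen _ _ (hZ1 m)), hZ2, map_zero]
  · intro a ha
    have h1 : a ∈ MagHom.MC (Arr.topeGraph (Arr.arr f)) k l ∧ DD f (Jl f k a) = 0 := by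
      rcases k with _ | n
      · refine ⟨ha, ?_⟩
        refine lin_eq ((DD f).comp (Jl f 0)) 0 (fun x => ?_) a
        have e1 : JJ f 0 x = (tope f (x 0), []) := by rw [JJ, List.ofFn_zero]
        rw [LinearMap.comp_apply, Jl_single, e1, DD_single, bV, map_zero, neg_zero,
          LinearMap.zero_apply]
      · refine ⟨ha.1, ?_⟩
        have h2 : MagHom.bd (Arr.topeGraph (Arr.arr f)) n a = 0 := ha.2
        rw [← Jl_bd f hf hinj, h2, map_zero]
    obtain ⟨m, v, hv, hw⟩ := hZ3 _ (hJ k l a h1.1) h1.2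
    refine ⟨m, lft f (k + 1) v, hl _ _ _ hv, ?_⟩
    apply Jl_injective f k
    rw [Jl_bd f hf hinj, Jl_lft f _ _ (hlen _ _ hv), map_sub, hw, LinearMap.comp_apply,
      Jl_lft f _ _ (hlen _ _ (hZ1 m))]
    abel
  · rintro m ⟨b, hb, hbm⟩
    refine hZ4 m (Jl f (k + 1) b) (hJ _ _ _ hb) ?_
    rw [← Jl_bd f hf hinj, hbm, LinearMap.comp_apply, Jl_lft f _ _ (hlen _ _ (hZ1 m))]

theorem idx_finite (k l : ℕ) : Finite (Idx f k l) := by
  classical
  have : Finite (SV ι) := inferInstanceAs (Finite (ι → SignType))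
  have : Finite (Topes f) := Subtype.finite
  let g : Idx f k l → Topes f × (ι → Fin (l + 1)) := fun p => (p.1.1, fun i => ⟨p.1.2 i, by
    have h1 : ∑ i, p.1.2 i = l := p.2.2.1
    have h2 := Finset.single_le_sum (f := p.1.2) (fun _ _ => Nat.zero_le _) (Finset.mem_univ i)
    omega⟩)
  refine Finite.of_injective g ?_
  intro p q h
  apply Subtype.ext
  apply Prod.ext
  · exact (congrArg Prod.fst h : (g p).1 = (g q).1)
  · funext i
    have h1 := congrFun (congrArg Prod.snd h : (g p).2 = (g q).2) i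
    exact congrArg Fin.val h1

theorem arr_formsOf {d : ℕ} {A : Finset (Submodule ℝ (Fin d → ℝ))} (hA : Arr.IsArrangement A) :
    Arr.arr (formsOf A) = A := by
  ext H
  rw [Arr.mem_arr]
  constructor
  · rintro ⟨i, rfl⟩
    rw [ker_formsOf hA]
    exact i.2
  · intro hH
    exact ⟨⟨H, hH⟩, ker_formsOf hA _⟩

/-- PART D -/
theorem mh_equiv {d : ℕ} (A : Finset (Submodule ℝ (Fin d → ℝ))) (hA : Arr.IsArrangement A)
    (hyp : MainHyp (formsOf A)) (k l : ℕ) :
    Finite (Idx (formsOf A) k l) ∧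
      Nonempty (MagHom.MH (Arr.topeGraph A) k l ≃ₗ[ℤ] (Idx (formsOf A) k l →₀ ℤ)) := by
  refine ⟨idx_finite _ k l, ?_⟩
  have := mh_arr (formsOf A) (formsOf_ne_zero hA) (formsOf_inj hA) hyp k l
  rwa [arr_formsOf hA] at this

end Pool.Agent.V8H61.MD
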