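import Pool.Agent.V8H61.MC.Flat
import Pool.Agent.R142.Arr

/-!
# The path metric of the tope graph is the number of separating hyperplanes
-/

set_option autoImplicit false

namespace Pool.Agent.V8H61.MD

open Pool.Agent.V8H14.MHA Pool.Agent.R142 Pool.Agent.V8H61.MC

variable {d : ℕ} {ι : Type} [Fintype ι] (f : ι → ((Fin d → ℝ) →ₗ[ℝ] ℝ))

theorem exists_perturb (hf : ∀ i, f i ≠ 0) (hinj : Function.Injective fun i => LinearMap.ker (f i))
    (x y : Arr.Complement (Arr.arr f)) (i j : ι) (hij : i ≠ j)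
    (hj : Arr.sg f x j ≠ Arr.sg f y j) :
    ∃ x' : Arr.Complement (Arr.arr f), Arr.sg f x' = Arr.sg f x ∧
      f i x'.1 / (f i x'.1 - f i y.1) ≠ f j x'.1 / (f j x'.1 - f j y.1) := by
  classical
  by_cases h : f i x.1 / (f i x.1 - f i y.1) ≠ f j x.1 / (f j x.1 - f j y.1)
  · exact ⟨x, rfl, h⟩
  rw [not_not] at h
  obtain ⟨w, hwi, hwj⟩ : ∃ w, f i w = 0 ∧ f j w ≠ 0 := by
    by_contra hcon
    push Not at hcon
    apply hij
    apply hinj
    apply Submodule.eq_of_le_of_finrank_eq (fun w hw => hcon w hw)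
    have h1 := Module.Dual.finrank_ker_add_one_of_ne_zero
      (f := (f i : Module.Dual ℝ (Fin d → ℝ))) (hf i)
    have h2 := Module.Dual.finrank_ker_add_one_of_ne_zero
      (f := (f j : Module.Dual ℝ (Fin d → ℝ))) (hf j)
    exact Nat.succ_injective (h1.trans h2.symm)
  obtain ⟨ε, hε, -, hle⟩ := (ro_above f (sgv f x.1) ⊤).opn x.1 ⟨Submodule.mem_top, le_refl _⟩ w
    Submodule.mem_top
  have hs : ∀ m, SignType.sign (f m x.1) = SignType.sign (f m (x.1 + ε • w)) := by
    intro m
    refine (hle m).resolve_left ?_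
    intro h0
    exact Arr.ne_zero f x m (sign_eq_zero_iff.1 h0)
  have hne : ∀ m, f m (x.1 + ε • w) ≠ 0 := by
    intro m h0
    have := hs m
    rw [h0, sign_zero, sign_eq_zero_iff] at this
    exact Arr.ne_zero f x m this
  refine ⟨⟨x.1 + ε • w, ?_⟩, ?_, ?_⟩
  · intro H hH hxH
    obtain ⟨m, rfl⟩ := (Arr.mem_arr f).1 hH
    exact hne m hxH
  · funext m
    have := hs m
    simp only [Arr.sg]
    congr 1
    rw [eq_iff_iff, ← sign_eq_one_iff, ← sign_eq_one_iff, this]
  · show f i (x.1 + ε • w) / (f i (x.1 + ε • w) - f i y.1)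
      ≠ f j (x.1 + ε • w) / (f j (x.1 + ε • w) - f j y.1)
    have e1 : f i (x.1 + ε • w) = f i x.1 := by rw [map_add, map_smul, hwi]; simp
    rw [e1, h]
    have hyj : f j y.1 ≠ 0 := Arr.ne_zero f y j
    have hd1 : f j x.1 - f j y.1 ≠ 0 := by
      intro h0
      apply hj
      have : f j x.1 = f j y.1 := by linarith
      simp only [Arr.sg, this]
    have hd2 : f j (x.1 + ε • w) - f j y.1 ≠ 0 := by
      intro h0
      apply hj
      have h1 : f j (x.1 + ε • w) = f j y.1 := by linarith
      have h2 := hs j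
      rw [h1] at h2
      simp only [Arr.sg]
      congr 1
      rw [eq_iff_iff, ← sign_eq_one_iff, ← sign_eq_one_iff, h2]
    intro h3
    rw [div_eq_div_iff hd1 hd2] at h3
    have h4 : f j y.1 * (f j (x.1 + ε • w) - f j x.1) = 0 := by linarith
    rcases mul_eq_zero.1 h4 with h5 | h5
    · exact hyj h5
    · rw [map_add, map_smul, smul_eq_mul] at h5
      have h6 : ε * f j w = 0 := by linarith
      rcases mul_eq_zero.1 h6 with h7 | h7
      · exact hε.ne' h7
      · exact hwj h7

theorem exists_between (hf : ∀ i, f i ≠ 0) (hinj : Function.Injective fun i => LinearMap.ker (f i))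
    (x y : Arr.Complement (Arr.arr f)) (i j : ι) (hij : i ≠ j) (hi : Arr.sg f x i ≠ Arr.sg f y i)
    (hj : Arr.sg f x j ≠ Arr.sg f y j) :
    ∃ z : Arr.Complement (Arr.arr f), (∀ m, Arr.sg f x m = Arr.sg f y m → Arr.sg f z m = Arr.sg f x m) ∧
      (∃ i', Arr.sg f x i' ≠ Arr.sg f y i' ∧ Arr.sg f z i' = Arr.sg f x i') ∧
      ∃ j', Arr.sg f z j' ≠ Arr.sg f x j' := by
  classical
  obtain ⟨x', hx', hne⟩ := exists_perturb f hf hinj x y i j hij hj
  rw [← hx'] at hi hj ⊢
  clear hx'
  let t : ι → ℝ := fun m => f m x'.1 / (f m x'.1 - f m y.1)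
  have hlt : min (t i) (t j) < max (t i) (t j) := min_lt_max.2 hne
  obtain ⟨s, hs, hsn⟩ := (Set.Ioo_infinite hlt).exists_notMem_finset (Finset.univ.image t)
  have hsm : ∀ m, s ≠ t m := fun m h => hsn (Finset.mem_image.2 ⟨m, Finset.mem_univ _, h.symm⟩)
  -- the parameters are in the unit interval
  have ht01 : ∀ m, Arr.sg f x' m ≠ Arr.sg f y m → 0 < t m ∧ t m < 1 := by
    intro m hm
    rcases h1 : Arr.sg f x' m with _ | _
    · have h2 := (Arr.sg_false f).1 h1
      have h3 : 0 < f m y.1 := (Arr.sg_true f).1 (by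
        rcases h4 : Arr.sg f y m with _ | _
        · exact absurd (h1.trans h4.symm) hm
        · rfl)
      constructor
      · exact div_pos_of_neg_of_neg h2 (by linarith)
      · rw [div_lt_one_of_neg (by linarith)]
        linarith
    · have h2 := (Arr.sg_true f).1 h1
      have h3 : f m y.1 < 0 := (Arr.sg_false f).1 (by
        rcases h4 : Arr.sg f y m with _ | _
        · rfl
        · exact absurd (h1.trans h4.symm) hm)
      constructor
      · exact div_pos h2 (by linarith)
      · rw [div_lt_one (by linarith)]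
        linarith
  have hs0 : 0 < s := by
    have := hs.1
    rcases min_choice (t i) (t j) with h | h
    · rw [h] at this; linarith [(ht01 i hi).1]
    · rw [h] at this; linarith [(ht01 j hj).1]
  have hs1 : s < 1 := by
    have := hs.2
    rcases max_choice (t i) (t j) with h | h
    · rw [h] at this; linarith [(ht01 i hi).2]
    · rw [h] at this; linarith [(ht01 j hj).2]
  have hval : ∀ m, f m ((1 - s) • x'.1 + s • y.1) = f m x'.1 - s * (f m x'.1 - f m y.1) := by
    intro m
    rw [map_add, map_smul, map_smul, smul_eq_mul, smul_eq_mul]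
    ring
  have hval2 : ∀ m, Arr.sg f x' m ≠ Arr.sg f y m → f m ((1 - s) • x'.1 + s • y.1)
      = (f m x'.1 - f m y.1) * (t m - s) := by
    intro m hm
    rw [hval]
    have : f m x'.1 - f m y.1 ≠ 0 := by
      intro h0
      apply hm
      have : f m x'.1 = f m y.1 := by linarith
      simp only [Arr.sg, this]
    have e1 : (f m x'.1 - f m y.1) * t m = f m x'.1 := mul_div_cancel₀ _ this
    calc f m x'.1 - s * (f m x'.1 - f m y.1) = (f m x'.1 - f m y.1) * t m
          - s * (f m x'.1 - f m y.1) := by rw [e1]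
      _ = _ := by ring
  have hz : ∀ m, f m ((1 - s) • x'.1 + s • y.1) ≠ 0 := by
    intro m
    by_cases hm : Arr.sg f x' m = Arr.sg f y m
    · exact Arr.seg_ne f hm (by linarith) hs0.le (by ring)
    · rw [hval2 m hm]
      refine mul_ne_zero ?_ (sub_ne_zero.2 (hsm m).symm)
      intro h0
      apply hm
      have : f m x'.1 = f m y.1 := by linarith
      simp only [Arr.sg, this]
  let z : Arr.Complement (Arr.arr f) := ⟨(1 - s) • x'.1 + s • y.1, by
    intro H hH hxH
    obtain ⟨m, rfl⟩ := (Arr.mem_arr f).1 hH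
    exact hz m hxH⟩
  -- the signs of z
  have hz1 : ∀ m, Arr.sg f x' m = Arr.sg f y m → Arr.sg f z m = Arr.sg f x' m := by
    intro m hm
    rcases h1 : Arr.sg f x' m with _ | _
    · have h2 := (Arr.sg_false f).1 h1
      have h3 := (Arr.sg_false f).1 (hm.symm.trans h1)
      rw [Arr.sg_false]
      show f m ((1 - s) • x'.1 + s • y.1) < 0
      rw [map_add, map_smul, map_smul, smul_eq_mul, smul_eq_mul]
      nlinarith [mul_pos hs0 (neg_pos.2 h3), mul_pos (sub_pos.2 hs1) (neg_pos.2 h2)]
    · have h2 := (Arr.sg_true f).1 h1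
      have h3 := (Arr.sg_true f).1 (hm.symm.trans h1)
      rw [Arr.sg_true]
      show 0 < f m ((1 - s) • x'.1 + s • y.1)
      rw [map_add, map_smul, map_smul, smul_eq_mul, smul_eq_mul]
      nlinarith [mul_pos hs0 h3, mul_pos (sub_pos.2 hs1) h2]
  have hz2 : ∀ m, Arr.sg f x' m ≠ Arr.sg f y m → (Arr.sg f z m = Arr.sg f x' m ↔ s < t m) := by
    intro m hm
    have hv := hval2 m hm
    rcases h1 : Arr.sg f x' m with _ | _
    · have h2 := (Arr.sg_false f).1 h1
      have h3 : 0 < f m y.1 := (Arr.sg_true f).1 (by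
        rcases h4 : Arr.sg f y m with _ | _
        · exact absurd (h1.trans h4.symm) hm
        · rfl)
      rw [Arr.sg_false]
      show f m ((1 - s) • x'.1 + s • y.1) < 0 ↔ _
      rw [hv]
      constructor
      · intro h
        by_contra hle
        have : 0 ≤ (f m x'.1 - f m y.1) * (t m - s) :=
          mul_nonneg_of_nonpos_of_nonpos (by linarith) (by linarith)
        linarith
      · intro h
        exact mul_neg_of_neg_of_pos (by linarith) (by linarith)
    · have h2 := (Arr.sg_true f).1 h1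
      have h3 : f m y.1 < 0 := (Arr.sg_false f).1 (by
        rcases h4 : Arr.sg f y m with _ | _
        · rfl
        · exact absurd (h1.trans h4.symm) hm)
      rw [Arr.sg_true]
      show 0 < f m ((1 - s) • x'.1 + s • y.1) ↔ _
      rw [hv]
      constructor
      · intro h
        by_contra hle
        have : (f m x'.1 - f m y.1) * (t m - s) ≤ 0 :=
          mul_nonpos_of_nonneg_of_nonpos (by linarith) (by linarith)
        linarith
      · intro h
        exact mul_pos (by linarith) (by linarith)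
  refine ⟨z, hz1, ?_⟩
  rcases lt_or_gt_of_ne hne with h | h
  · -- t i < t j
    have h' : t i < t j := h
    rw [min_eq_left h'.le, max_eq_right h'.le] at hs
    exact ⟨⟨j, hj, (hz2 j hj).2 hs.2⟩, ⟨i, fun h1 => absurd ((hz2 i hi).1 h1) (not_lt.2 hs.1.le)⟩⟩
  · have h' : t j < t i := h
    rw [min_eq_right h'.le, max_eq_left h'.le] at hs
    exact ⟨⟨i, hi, (hz2 i hi).2 hs.2⟩, ⟨j, fun h1 => absurd ((hz2 j hj).1 h1) (not_lt.2 hs.1.le)⟩⟩

theorem hstep (hf : ∀ i, f i ≠ 0) (hinj : Function.Injective fun i => LinearMap.ker (f i))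
    (a b : Arr.Chamber (Arr.arr f)) (hab : a ≠ b) :
    ∃ c, hammingDist (Arr.sgC f a) (Arr.sgC f c) = 1 ∧
      hammingDist (Arr.sgC f c) (Arr.sgC f b) + 1 = hammingDist (Arr.sgC f a) (Arr.sgC f b) := by
  classical
  -- the chambers between `a` and `b`, different from `a`
  let P : ℕ → Prop := fun n => ∃ c, c ≠ a ∧
    (∀ m, Arr.sgC f a m = Arr.sgC f b m → Arr.sgC f c m = Arr.sgC f a m) ∧
    hammingDist (Arr.sgC f a) (Arr.sgC f c) = n
  have hex : ∃ n, P n := ⟨_, b, hab.symm, fun m h => h.symm, rfl⟩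
  obtain ⟨c, hca, hc1, hc2⟩ := Nat.find_spec hex
  have hmin := fun n (h : n < Nat.find hex) => Nat.find_min hex h
  have hone : hammingDist (Arr.sgC f a) (Arr.sgC f c) = 1 := by
    have hpos : 0 < hammingDist (Arr.sgC f a) (Arr.sgC f c) := by
      rw [hammingDist_pos]
      intro h
      exact hca (Arr.sgC_injective f h).symm
    by_contra hne
    have h2 : 1 < hammingDist (Arr.sgC f a) (Arr.sgC f c) := by omega
    rw [hammingDist, Finset.one_lt_card] at h2
    obtain ⟨i, hi, j, hj, hij⟩ := h2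
    rw [Finset.mem_filter] at hi hj
    obtain ⟨x, rfl⟩ := ConnectedComponents.surjective_coe a
    obtain ⟨y, rfl⟩ := ConnectedComponents.surjective_coe c
    simp only [Arr.sgC_coe] at hi hj hc1 hc2 hmin
    obtain ⟨z, hz1, ⟨i', hi'1, hi'2⟩, ⟨j', hj'⟩⟩ := exists_between f hf hinj x y i j hij hi.2 hj.2
    have hlt : hammingDist (Arr.sg f x) (Arr.sg f z) < hammingDist (Arr.sg f x) (Arr.sg f y) := by
      rw [hammingDist, hammingDist]
      apply Finset.card_lt_card
      rw [Finset.ssubset_iff_of_subset]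
      · refine ⟨i', ?_, ?_⟩
        · rw [Finset.mem_filter]; exact ⟨Finset.mem_univ _, hi'1⟩
        · rw [Finset.mem_filter]; exact fun h => h.2 hi'2.symm
      · intro m hm
        rw [Finset.mem_filter] at hm ⊢
        exact ⟨Finset.mem_univ _, fun h => hm.2 (hz1 m h).symm⟩
    refine hmin (hammingDist (Arr.sg f x) (Arr.sg f z)) (by rw [← hc2]; exact hlt)
      ⟨(z : ConnectedComponents (Arr.Complement (Arr.arr f))), ?_, ?_, ?_⟩
    · intro h
      have := congrArg (Arr.sgC f) h
      rw [Arr.sgC_coe, Arr.sgC_coe] at this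
      exact hj' (congrFun this j')
    · intro m hm
      rw [Arr.sgC_coe] at hm ⊢
      rw [Arr.sgC_coe] 
      have := hc1 m hm
      exact hz1 m this.symm
    · rw [Arr.sgC_coe, Arr.sgC_coe]
  refine ⟨c, hone, ?_⟩
  rw [← hone, hammingDist, hammingDist, hammingDist, ← Finset.card_union_of_disjoint]
  · congr 1
    ext m
    simp only [Finset.mem_union, Finset.mem_filter, Finset.mem_univ, true_and]
    have := hc1 m
    rcases h1 : Arr.sgC f a m with _ | _ <;> rcases h2 : Arr.sgC f b m with _ | _ <;>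
      rcases h3 : Arr.sgC f c m with _ | _ <;> simp [h1, h2, h3] at this ⊢
  · rw [Finset.disjoint_filter]
    intro m _ h4 h5
    have := hc1 m
    rcases h1 : Arr.sgC f a m with _ | _ <;> rcases h2 : Arr.sgC f b m with _ | _ <;>
      rcases h3 : Arr.sgC f c m with _ | _ <;> simp [h1, h2, h3] at this h4 h5

theorem dist_eq (hf : ∀ i, f i ≠ 0) (hinj : Function.Injective fun i => LinearMap.ker (f i))
    (a b : Arr.Chamber (Arr.arr f)) :
    (Arr.topeGraph (Arr.arr f)).dist a b = hammingDist (Arr.sgC f a) (Arr.sgC f b) :=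
  Arr.dist_eq _ (Arr.sgC f) (Arr.sgC_injective f) (Arr.adj_iff f hinj) (hstep f hf hinj) a b

/-- The tope of a chamber. -/
noncomputable def tope (C : Arr.Chamber (Arr.arr f)) : Topes f :=
  ⟨fun i => if Arr.sgC f C i = true then 1 else -1, by
    obtain ⟨x, rfl⟩ := ConnectedComponents.surjective_coe C
    refine ⟨x.1, ?_⟩
    funext i
    rw [Arr.sgC_coe]
    rcases h : Arr.sg f x i with _ | _
    · rw [if_neg (by decide)]
      exact sign_eq_neg_one_iff.2 ((Arr.sg_false f).1 h)
    · rw [if_pos rfl]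
      exact sign_eq_one_iff.2 ((Arr.sg_true f).1 h), by
    intro i
    show (if Arr.sgC f C i = true then (1 : SignType) else -1) ≠ 0
    split_ifs
    · decide
    · decide⟩

theorem tope_apply (C : Arr.Chamber (Arr.arr f)) (i : ι) :
    (tope f C).1 i = if Arr.sgC f C i = true then 1 else -1 := rfl

theorem tope_ne_iff (C D : Arr.Chamber (Arr.arr f)) (i : ι) :
    (tope f C).1 i ≠ (tope f D).1 i ↔ Arr.sgC f C i ≠ Arr.sgC f D i := by
  rw [tope_apply, tope_apply]
  rcases Arr.sgC f C i with _ | _ <;> rcases Arr.sgC f D i with _ | _ <;> simp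

theorem tope_bijective : Function.Bijective (tope f) := by
  constructor
  · intro C D h
    apply Arr.sgC_injective f
    funext i
    by_contra hne
    exact (tope_ne_iff f C D i).2 hne (by rw [h])
  · rintro ⟨σ, ⟨v, rfl⟩, hσ⟩
    have hne : ∀ i, f i v ≠ 0 := fun i h => hσ i (by simp only [sgv, h, sign_zero])
    let x : Arr.Complement (Arr.arr f) := ⟨v, by
      intro H hH hxH
      obtain ⟨m, rfl⟩ := (Arr.mem_arr f).1 hH
      exact hne m hxH⟩
    refine ⟨(x : ConnectedComponents (Arr.Complement (Arr.arr f))), ?_⟩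
    apply Subtype.ext
    funext i
    rw [tope_apply, Arr.sgC_coe]
    rcases h : Arr.sg f x i with _ | _
    · rw [if_neg (by decide)]
      exact (sign_eq_neg_one_iff.2 ((Arr.sg_false f).1 h)).symm
    · rw [if_pos rfl]
      exact (sign_eq_one_iff.2 ((Arr.sg_true f).1 h)).symm

open Classical in
theorem dist_tope (hf : ∀ i, f i ≠ 0) (hinj : Function.Injective fun i => LinearMap.ker (f i))
    (a b : Arr.Chamber (Arr.arr f)) :
    (Arr.topeGraph (Arr.arr f)).dist a b = ∑ i, if (tope f a).1 i ≠ (tope f b).1 i then 1 else 0 := by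
  rw [dist_eq f hf hinj, hammingDist, Finset.card_filter]
  refine Finset.sum_congr rfl fun i _ => ?_
  simp only [tope_ne_iff]

end Pool.Agent.V8H61.MD
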